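import Pool.Agent.Q75.KanB
import Pool.Agent.Q75.KanC

/-!
# Disconnected random Julia sets of the complexified Kan skew product (MP_aeea9f_an, Q1)

For every base degree `L ≥ 2` and every `α` with `0 < |α| < 1` the set of `u` for which the random
Julia set is disconnected contains a set of positive Lebesgue measure.
-/

set_option autoImplicit false

namespace Pool.Agent.Results.MP_aeea9f_an.DisconnectedJulia

open Filter Topology MeasureTheory
open scoped OnePoint

/-- The fibre map `f_u(z) = z + α cos(2πu) z (1 - z)` on the plane. -/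
noncomputable def fibre (α : ℂ) (u : ℝ) (z : ℂ) : ℂ :=
  z + α * ((Real.cos (2 * Real.pi * u) : ℝ) : ℂ) * z * (1 - z)

/-- The fibre iterates `f_u^n` on the Riemann sphere `OnePoint ℂ`, each fibre map fixing `∞`; the
base map is `u ↦ L u` (the fibre maps are `1`-periodic in `u`, so no reduction mod `1` is needed). -/
noncomputable def orbit (L : ℕ) (α : ℂ) (u : ℝ) : ℕ → OnePoint ℂ → OnePoint ℂ
  | 0, z => z
  | n + 1, z => OnePoint.map (fibre α ((L : ℝ) ^ n * u)) (orbit L α u n z)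

/-- The chordal (spherical) distance on `OnePoint ℂ`. -/
noncomputable def chord : OnePoint ℂ → OnePoint ℂ → ℝ
  | some a, some b => 2 * ‖a - b‖ / (Real.sqrt (1 + ‖a‖ ^ 2) * Real.sqrt (1 + ‖b‖ ^ 2))
  | some a, none => 2 / Real.sqrt (1 + ‖a‖ ^ 2)
  | none, some b => 2 / Real.sqrt (1 + ‖b‖ ^ 2)
  | none, none => 0

/-- Normality of a sequence of self-maps of the sphere on `U`: every subsequence has a further
subsequence converging, uniformly on compact subsets of `U`, in the spherical metric. -/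
def NormalOn (F : ℕ → OnePoint ℂ → OnePoint ℂ) (U : Set (OnePoint ℂ)) : Prop :=
  ∀ φ : ℕ → ℕ, StrictMono φ → ∃ ψ : ℕ → ℕ, StrictMono ψ ∧ ∃ h : OnePoint ℂ → OnePoint ℂ,
    ∀ K : Set (OnePoint ℂ), K ⊆ U → IsCompact K → ∀ ε : ℝ, 0 < ε →
      ∃ N : ℕ, ∀ m ≥ N, ∀ w ∈ K, chord (F (φ (ψ m)) w) (h w) < ε

/-- The random Fatou set over `u`: the points of the sphere with a neighbourhood on which the
family `f_u^n`, `n ≥ 1`, is normal. -/
def fatou (L : ℕ) (α : ℂ) (u : ℝ) : Set (OnePoint ℂ) :=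
  {z | ∃ U : Set (OnePoint ℂ), IsOpen U ∧ z ∈ U ∧ NormalOn (fun n => orbit L α u (n + 1)) U}

/-- The random Julia set over `u`. -/
def julia (L : ℕ) (α : ℂ) (u : ℝ) : Set (OnePoint ℂ) := (fatou L α u)ᶜ

open Pool.Agent.TH229.Kan Q75.Kan

lemma orbit_infty (L : ℕ) (α : ℂ) (u : ℝ) (n : ℕ) : orbit L α u n ∞ = ∞ := by
  induction n with
  | zero => rfl
  | succ n ih => rw [orbit, ih]; rfl

lemma orbit_coe (L : ℕ) (α : ℂ) (u : ℝ) (n : ℕ) (z : ℂ) :
    orbit L α u n (z : OnePoint ℂ) = ((Phi L α z n u : ℂ) : OnePoint ℂ) := by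
  induction n with
  | zero => rfl
  | succ n ih =>
    rw [orbit, ih, OnePoint.map_some, Phi_succ, cc_cr, fibre, cr]

lemma chord_coe (a b : ℂ) : chord (a : OnePoint ℂ) (b : OnePoint ℂ) = dd a b := rfl

lemma chord_coe_infty (a : ℂ) : chord (a : OnePoint ℂ) ∞ = 2 / Real.sqrt (1 + ‖a‖ ^ 2) := rfl

lemma chord_infty_infty : chord ∞ ∞ = 0 := rfl

lemma chord_infty_le {a : ℂ} {R : ℝ} (hR : 0 < R) (ha : R ≤ ‖a‖) :
    chord (a : OnePoint ℂ) ∞ ≤ 2 / R := by
  rw [chord_coe_infty]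
  have h1 := norm_le_sq a
  have h2 := one_le_sq a
  gcongr
  exact ha.trans h1

lemma chord_comm (x y : OnePoint ℂ) : chord x y = chord y x := by
  induction x using OnePoint.rec with
  | infty =>
    induction y using OnePoint.rec with
    | infty => rfl
    | coe b => rfl
  | coe a =>
    induction y using OnePoint.rec with
    | infty => rfl
    | coe b => rw [chord_coe, chord_coe, dd_comm]

lemma chord_triangle (x y z : OnePoint ℂ) : chord x z ≤ chord x y + chord y z := by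
  induction x using OnePoint.rec with
  | infty =>
    induction y using OnePoint.rec with
    | infty => rw [chord_infty_infty, zero_add]
    | coe b =>
      induction z using OnePoint.rec with
      | infty =>
        rw [chord_infty_infty, chord_comm ∞, chord_coe_infty]
        positivity
      | coe c =>
        rw [chord_comm ∞, chord_comm ∞, chord_coe_infty, chord_coe_infty, chord_coe, dd]
        have hb := one_le_sq b
        have hc := one_le_sq c
        have h := sqrt_lip c b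
        rw [norm_sub_rev] at h
        set B := Real.sqrt (1 + ‖b‖ ^ 2)
        set C := Real.sqrt (1 + ‖c‖ ^ 2)
        have hB0 : 0 < B := by linarith
        have hC0 : 0 < C := by linarith
        rw [div_add_div _ _ (by positivity) (by positivity), div_le_div_iff₀ (by positivity)
          (by positivity)]
        nlinarith [mul_le_mul_of_nonneg_left h (by positivity : 0 ≤ B * C)]
  | coe a =>
    induction y using OnePoint.rec with
    | infty =>
      induction z using OnePoint.rec with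
      | infty => rw [chord_infty_infty, add_zero]
      | coe c =>
        rw [chord_comm ∞, chord_coe_infty, chord_coe_infty, chord_coe, dd]
        have ha := one_le_sq a
        have hc := one_le_sq c
        have ha2 := norm_le_sq a
        have hc2 := norm_le_sq c
        have h := norm_sub_le a c
        set A := Real.sqrt (1 + ‖a‖ ^ 2)
        set C := Real.sqrt (1 + ‖c‖ ^ 2)
        have hA0 : 0 < A := by linarith
        have hC0 : 0 < C := by linarith
        rw [div_add_div _ _ (by positivity) (by positivity), div_le_div_iff₀ (by positivity)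
          (by positivity)]
        have h' : ‖a - c‖ ≤ A + C := by linarith
        nlinarith [mul_le_mul_of_nonneg_left h' (by positivity : 0 ≤ A * C)]
    | coe b =>
      induction z using OnePoint.rec with
      | infty =>
        rw [chord_coe_infty, chord_coe_infty, chord_coe, dd]
        have ha := one_le_sq a
        have hb := one_le_sq b
        have h := sqrt_lip a b
        set A := Real.sqrt (1 + ‖a‖ ^ 2)
        set B := Real.sqrt (1 + ‖b‖ ^ 2)
        have hA0 : 0 < A := by linarith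
        have hB0 : 0 < B := by linarith
        rw [div_add_div _ _ (by positivity) (by positivity), div_le_div_iff₀ (by positivity)
          (by positivity)]
        nlinarith [mul_le_mul_of_nonneg_left h (by positivity : 0 ≤ A * B)]
      | coe c =>
        rw [chord_coe, chord_coe, chord_coe]
        exact dd_triangle a b c


/-! ### Escaping points are in the Fatou set -/

lemma Phi_escape {L : ℕ} {α : ℂ} (hα0 : 0 < ‖α‖) {u : ℝ} {n : ℕ} {M : ℝ} (hM : 0 < M)
    (hG : (L : ℝ) ^ n * u ∈ GE L M) {w : ℂ} (hw : RE α M ≤ ‖Phi L α w n u‖) (k : ℕ) :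
    2 ^ k ≤ ‖Phi L α w (n + k) u‖ := by
  rw [Phi_add_real]
  have h1 := escape hα0 hM hG hw k
  have h2 := RE_pos hα0 hM
  refine le_trans ?_ h1
  have : (0 : ℝ) < 2 ^ k := by positivity
  nlinarith

lemma normalOn_of_escape {L : ℕ} {α : ℂ} (hα0 : 0 < ‖α‖) {u : ℝ} {n : ℕ} {M : ℝ} (hM : 0 < M)
    (hG : (L : ℝ) ^ n * u ∈ GE L M) {U : Set (OnePoint ℂ)}
    (hU : ∀ w ∈ U, w = ∞ ∨ ∃ w' : ℂ, w = (w' : OnePoint ℂ) ∧ RE α M ≤ ‖Phi L α w' n u‖) :
    NormalOn (fun n => orbit L α u (n + 1)) U := by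
  intro φ hφ
  refine ⟨id, strictMono_id, fun _ => ∞, fun K hK _ ε hε => ?_⟩
  obtain ⟨k, hk⟩ := pow_unbounded_of_one_lt (2 / ε) (by norm_num : (1 : ℝ) < 2)
  refine ⟨n + k, fun m hm w hw => ?_⟩
  simp only [id]
  rcases hU w (hK hw) with rfl | ⟨w', rfl, hw'⟩
  · rw [orbit_infty, chord_infty_infty]
    exact hε
  · rw [orbit_coe]
    obtain ⟨l, hl⟩ : ∃ l, φ m + 1 = n + (k + l) := by
      have := hφ.id_le m
      simp only [id] at this
      exact ⟨φ m + 1 - n - k, by omega⟩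
    rw [hl]
    have h1 := Phi_escape hα0 hM hG hw' (k + l)
    have h2 : (2 : ℝ) ^ k ≤ 2 ^ (k + l) := pow_le_pow_right₀ (by norm_num) (by omega)
    have h3 := chord_infty_le (by positivity : (0 : ℝ) < 2 ^ (k + l)) h1
    have h4 : 2 / (2 : ℝ) ^ (k + l) ≤ 2 / 2 ^ k :=
      div_le_div_of_nonneg_left (by norm_num) (by positivity) h2
    have h5 : 2 / (2 : ℝ) ^ k < ε := by
      rw [div_lt_iff₀ (by positivity)]
      rw [div_lt_iff₀ hε] at hk
      linarith
    linarith

lemma mem_fatou_of_escape {L : ℕ} {α : ℂ} (hα0 : 0 < ‖α‖) {u : ℝ} {n : ℕ} {M : ℝ} (hM : 0 < M)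
    (hG : (L : ℝ) ^ n * u ∈ GE L M) {z : ℂ} (hz : RE α M < ‖Phi L α z n u‖) :
    (z : OnePoint ℂ) ∈ fatou L α u := by
  refine ⟨(fun w : ℂ => (w : OnePoint ℂ)) '' {w | RE α M < ‖Phi L α w n u‖}, ?_, ⟨z, hz, rfl⟩, ?_⟩
  · apply OnePoint.isOpenMap_coe
    exact isOpen_lt continuous_const (Phi_diff_z L α n u).continuous.norm
  · apply normalOn_of_escape hα0 hM hG
    rintro _ ⟨w, hw, rfl⟩
    exact Or.inr ⟨w, rfl, le_of_lt hw⟩

lemma infty_mem_fatou {L : ℕ} {α : ℂ} (hα0 : 0 < ‖α‖) {u : ℝ} {n : ℕ} {M : ℝ} (hM : 0 < M)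
    (hc : ∀ j < n, cr L j u ≠ 0) (hG : (L : ℝ) ^ n * u ∈ GE L M) : ∞ ∈ fatou L α u := by
  obtain ⟨ρ, hρ⟩ := Phi_large (norm_pos_iff.1 hα0) hc (RE α M)
  refine ⟨((fun w : ℂ => (w : OnePoint ℂ)) '' Metric.closedBall 0 ρ)ᶜ, ?_, ?_, ?_⟩
  · exact OnePoint.isOpen_compl_image_coe.2 ⟨Metric.isClosed_closedBall, isCompact_closedBall _ _⟩
  · rintro ⟨w, -, hw⟩
    exact OnePoint.coe_ne_infty w hw
  · apply normalOn_of_escape hα0 hM hG
    intro w hw
    induction w using OnePoint.rec with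
    | infty => exact Or.inl rfl
    | coe w =>
      refine Or.inr ⟨w, rfl, hρ w ?_⟩
      by_contra hcon
      push Not at hcon
      exact hw ⟨w, by simpa using hcon.le, rfl⟩

/-! ### The Julia set is not empty -/

lemma julia_nonempty {L : ℕ} {α : ℂ} (hα0 : 0 < ‖α‖) {u : ℝ} {n : ℕ} {M : ℝ} (hM : 0 < M)
    (hc : ∀ j < n, cr L j u ≠ 0) (hG : (L : ℝ) ^ n * u ∈ GE L M) :
    ∃ z : OnePoint ℂ, z ∈ julia L α u := by
  by_contra hcon
  push Not at hcon
  have hF : ∀ z, z ∈ fatou L α u := fun z => by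
    by_contra h
    exact hcon z h
  set g : ℕ → ℂ → ℂ := fun n z => Phi L α z (n + 1) u with hg
  have hgd : ∀ n, Differentiable ℂ (g n) := fun n => Phi_diff_z L α (n + 1) u
  set A : Set ℂ := {z | ∃ r : ℝ, 0 < r ∧ ∀ B : ℝ, ∃ N, ∀ n ≥ N, ∀ w ∈ Metric.ball z r,
    B ≤ ‖g n w‖} with hA
  have hAopen : IsOpen A := by
    rw [Metric.isOpen_iff]
    rintro z ⟨r, hr, h⟩
    refine ⟨r / 2, by linarith, fun y hy => ⟨r / 2, by linarith, fun B => ?_⟩⟩
    obtain ⟨N, hN⟩ := h B
    refine ⟨N, fun n hn w hw => hN n hn w ?_⟩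
    rw [Metric.mem_ball] at hy hw ⊢
    have := dist_triangle w y z
    linarith
  have hAne : A.Nonempty := by
    obtain ⟨ρ, hρ⟩ := Phi_large (norm_pos_iff.1 hα0) hc (RE α M)
    refine ⟨((|ρ| + 1 : ℝ) : ℂ), 1, one_pos, fun B => ?_⟩
    obtain ⟨k, hk⟩ := pow_unbounded_of_one_lt B (by norm_num : (1 : ℝ) < 2)
    refine ⟨n + k, fun m hm w hw => ?_⟩
    have hw' : ρ ≤ ‖w‖ := by
      rw [Metric.mem_ball, dist_eq_norm, norm_sub_rev] at hw
      have h1 := norm_sub_norm_le ((|ρ| + 1 : ℝ) : ℂ) w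
      rw [Complex.norm_real, Real.norm_eq_abs, abs_of_nonneg (by positivity)] at h1
      have := le_abs_self ρ
      linarith
    obtain ⟨l, hl⟩ : ∃ l, m + 1 = n + (k + l) := ⟨m + 1 - n - k, by omega⟩
    have h1 := Phi_escape hα0 hM hG (hρ w hw') (k + l)
    have h2 : (2 : ℝ) ^ k ≤ 2 ^ (k + l) := pow_le_pow_right₀ (by norm_num) (by omega)
    simp only [hg, hl]
    linarith
  have h0 : (0 : ℂ) ∉ A := by
    rintro ⟨r, hr, h⟩
    obtain ⟨N, hN⟩ := h 1
    have := hN N le_rfl 0 (Metric.mem_ball_self hr)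
    simp only [hg, Phi_zero_pt, norm_zero] at this
    linarith
  obtain ⟨z, hz1, hz2⟩ : ∃ z ∈ closure A, z ∉ A := by
    by_contra hcl
    push Not at hcl
    have : IsClopen A := ⟨isClosed_of_closure_subset hcl, hAopen⟩
    rcases isClopen_iff.1 this with h | h
    · exact hAne.ne_empty h
    · rw [h] at h0
      exact h0 (Set.mem_univ _)
  obtain ⟨U, hUo, hzU, hnorm⟩ := hF (z : OnePoint ℂ)
  have hU' : IsOpen ((fun w : ℂ => (w : OnePoint ℂ)) ⁻¹' U) := hUo.preimage OnePoint.continuous_coe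
  obtain ⟨r0, hr0, hr0U⟩ := Metric.isOpen_iff.1 hU' z hzU
  set r := r0 / 2 with hr
  have hrpos : 0 < r := by linarith
  obtain ⟨a, haA, haz⟩ := Metric.mem_closure_iff.1 hz1 r hrpos
  have ha : a ∈ Metric.ball z r := by rwa [Metric.mem_ball, dist_comm]
  have hinf : Tendsto (fun n => ‖g n a‖) atTop atTop := by
    obtain ⟨s, hs, h⟩ := haA
    rw [tendsto_atTop]
    intro B
    obtain ⟨N, hN⟩ := h B
    filter_upwards [eventually_ge_atTop N] with n hn
    exact hN n hn a (Metric.mem_ball_self hs)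
  have hbad : ∃ B : ℝ, ∀ N, ∃ n ≥ N, ∃ w ∈ Metric.ball z r, ‖g n w‖ < B := by
    by_contra hb
    push Not at hb
    exact hz2 ⟨r, hrpos, hb⟩
  refine not_normal hgd ha hinf hbad fun φ hφ => ?_
  obtain ⟨ψ, hψ, h, hconv⟩ := hnorm φ hφ
  refine ⟨ψ, hψ, fun ε hε => ?_⟩
  set K : Set ℂ := Metric.closedBall z r with hK
  have hKU : (fun w : ℂ => (w : OnePoint ℂ)) '' K ⊆ U := by
    rintro _ ⟨w, hw, rfl⟩
    apply hr0U
    rw [hK, Metric.mem_closedBall] at hw
    rw [Metric.mem_ball]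
    linarith
  have hKc : IsCompact ((fun w : ℂ => (w : OnePoint ℂ)) '' K) :=
    (isCompact_closedBall z r).image OnePoint.continuous_coe
  obtain ⟨N, hN⟩ := hconv _ hKU hKc (ε / 2) (by linarith)
  refine ⟨N, fun m hm m' hm' w hw => ?_⟩
  have hwK : (w : OnePoint ℂ) ∈ (fun w : ℂ => (w : OnePoint ℂ)) '' K :=
    ⟨w, Metric.ball_subset_closedBall hw, rfl⟩
  have h1 := hN m hm _ hwK
  have h2 := hN m' hm' _ hwK
  simp only [orbit_coe] at h1 h2
  rw [chord_comm] at h2
  have h3 := chord_triangle ((Phi L α w (φ (ψ m) + 1) u : ℂ) : OnePoint ℂ) (h w)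
    ((Phi L α w (φ (ψ m') + 1) u : ℂ) : OnePoint ℂ)
  rw [chord_coe] at h3
  change dd (Phi L α w (φ (ψ m) + 1) u) (Phi L α w (φ (ψ m') + 1) u) < ε
  linarith

/-! ### Symmetry about the critical point -/

/-- The reflection `z ↦ 2 k - z` of the sphere. -/
noncomputable def refl (k : ℂ) : OnePoint ℂ ≃ₜ OnePoint ℂ := (Homeomorph.subLeft (2 * k)).onePointCongr

lemma refl_coe (k z : ℂ) : refl k (z : OnePoint ℂ) = ((2 * k - z : ℂ) : OnePoint ℂ) := rfl

lemma refl_infty (k : ℂ) : refl k ∞ = ∞ := rfl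

lemma orbit_refl {L : ℕ} {α : ℂ} {u : ℝ} (hα : α ≠ 0) (hc : cr L 0 u ≠ 0) (n : ℕ)
    (w : OnePoint ℂ) :
    orbit L α u (n + 1) (refl (crit α (cr L 0 u)) w) = orbit L α u (n + 1) w := by
  induction w using OnePoint.rec with
  | infty => rw [refl_infty]
  | coe z =>
    rw [refl_coe, orbit_coe, orbit_coe]
    congr 1
    have h1 : ∀ y : ℂ, Phi L α y (n + 1) u = Phi L α (Phi L α y 1 u) n (((L : ℝ) ^ 1 * u : ℝ) : ℂ) := by
      intro y
      rw [add_comm n 1, Phi_add_real]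
    rw [h1, h1 z]
    congr 1
    rw [Phi_succ_real', Phi_succ_real', Phi_zero, Phi_zero, crit]
    have : (cr L 0 u : ℂ) ≠ 0 := by exact_mod_cast hc
    field_simp
    ring

lemma refl_mem_fatou {L : ℕ} {α : ℂ} {u : ℝ} (hα : α ≠ 0) (hc : cr L 0 u ≠ 0) {z : OnePoint ℂ}
    (hz : refl (crit α (cr L 0 u)) z ∈ fatou L α u) : z ∈ fatou L α u := by
  obtain ⟨U, hUo, hzU, hnorm⟩ := hz
  set σ := refl (crit α (cr L 0 u)) with hσ
  refine ⟨σ ⁻¹' U, hUo.preimage σ.continuous, hzU, fun φ hφ => ?_⟩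
  obtain ⟨ψ, hψ, h, hconv⟩ := hnorm φ hφ
  refine ⟨ψ, hψ, fun w => h (σ w), fun K hK hKc ε hε => ?_⟩
  obtain ⟨N, hN⟩ := hconv (σ '' K) (by rintro _ ⟨w, hw, rfl⟩; exact hK hw)
    (hKc.image σ.continuous) ε hε
  refine ⟨N, fun m hm w hw => ?_⟩
  have := hN m hm (σ w) ⟨w, hw, rfl⟩
  simp only [hσ, orbit_refl hα hc] at this
  exact this

/-! ### Disconnectedness -/

lemma not_preconnected {L : ℕ} {α : ℂ} (hα0 : 0 < ‖α‖) (hα1 : ‖α‖ < 1) {u : ℝ} {n : ℕ} {M : ℝ}
    (hM : 0 < M) (hgood : Good L α u n) (hbig : RE α M < 8 * 3 ^ (n - 5))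
    (hG : (L : ℝ) ^ n * u ∈ GE L M) : ¬ IsPreconnected (julia L α u) := by
  obtain ⟨hc, hline⟩ := hgood
  have hα : α ≠ 0 := norm_pos_iff.1 hα0
  have hc0 := hc 0 (Nat.zero_le _)
  set k := crit α (cr L 0 u) with hk
  have hk0 : k ≠ 0 := crit_ne_zero hα hα1 hc0 (cr_abs_le _ _ _)
  have hcj : ∀ j < n, cr L j u ≠ 0 := fun j hj => hc j hj.le
  -- the critical line lies in the Fatou set
  have hlineF : ∀ z : ℂ, (z / k).re = 1 → (z : OnePoint ℂ) ∈ fatou L α u := by
    intro z hz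
    apply mem_fatou_of_escape hα0 hM hG
    have hz' : z = k * (1 + ((z / k).im : ℝ) * Complex.I) := by
      have h1 : z / k = 1 + ((z / k).im : ℝ) * Complex.I := by
        conv_lhs => rw [← Complex.re_add_im (z / k), hz]
        push_cast
        rfl
      rw [← h1]
      field_simp
    rw [hz']
    exact lt_of_lt_of_le hbig (hline _)
  have hinfF : ∞ ∈ fatou L α u := infty_mem_fatou hα0 hM hcj hG
  set U₁ : Set (OnePoint ℂ) := (fun w : ℂ => (w : OnePoint ℂ)) '' {z | (z / k).re < 1} with hU₁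
  set U₂ : Set (OnePoint ℂ) := (fun w : ℂ => (w : OnePoint ℂ)) '' {z | 1 < (z / k).re} with hU₂
  have hcont : Continuous fun z : ℂ => (z / k).re :=
    Complex.continuous_re.comp (continuous_id.div_const k)
  have hU₁o : IsOpen U₁ := OnePoint.isOpenMap_coe _ (isOpen_lt hcont continuous_const)
  have hU₂o : IsOpen U₂ := OnePoint.isOpenMap_coe _ (isOpen_lt continuous_const hcont)
  have hcover : julia L α u ⊆ U₁ ∪ U₂ := by
    intro w hw
    induction w using OnePoint.rec with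
    | infty => exact absurd hinfF hw
    | coe z =>
      rcases lt_trichotomy (z / k).re 1 with h | h | h
      · exact Or.inl ⟨z, h, rfl⟩
      · exact absurd (hlineF z h) hw
      · exact Or.inr ⟨z, h, rfl⟩
  have hsym : ∀ z : ℂ, (z : OnePoint ℂ) ∈ julia L α u →
      ((2 * k - z : ℂ) : OnePoint ℂ) ∈ julia L α u := by
    intro z hz h
    apply hz
    apply refl_mem_fatou hα hc0
    rw [refl_coe]
    exact h
  have hre : ∀ z : ℂ, ((2 * k - z) / k).re = 2 - (z / k).re := by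
    intro z
    have : (2 * k - z) / k = 2 - z / k := by
      rw [sub_div, mul_div_assoc, div_self hk0, mul_one]
    rw [this, Complex.sub_re]
    norm_num
  obtain ⟨w, hw⟩ := julia_nonempty hα0 hM hcj hG
  intro hpre
  have hne : (julia L α u ∩ U₁).Nonempty ∧ (julia L α u ∩ U₂).Nonempty := by
    rcases hcover hw with ⟨z, hz, rfl⟩ | ⟨z, hz, rfl⟩
    · refine ⟨⟨_, hw, z, hz, rfl⟩, ⟨_, hsym z hw, 2 * k - z, ?_, rfl⟩⟩
      change 1 < ((2 * k - z) / k).re
      rw [hre]
      have : (z / k).re < 1 := hz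
      linarith
    · refine ⟨⟨_, hsym z hw, 2 * k - z, ?_, rfl⟩, ⟨_, hw, z, hz, rfl⟩⟩
      change ((2 * k - z) / k).re < 1
      rw [hre]
      have : 1 < (z / k).re := hz
      linarith
  obtain ⟨y, -, ⟨z1, hz1, hy1⟩, ⟨z2, hz2, hy2⟩⟩ := hpre U₁ U₂ hU₁o hU₂o hcover hne.1 hne.2
  have h12 : z1 = z2 := by
    have : (z1 : OnePoint ℂ) = (z2 : OnePoint ℂ) := by rw [← hy2] at hy1; exact hy1
    exact OnePoint.coe_injective this
  rw [h12] at hz1
  have e1 : (z2 / k).re < 1 := hz1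
  have e2 : 1 < (z2 / k).re := hz2
  exact lt_asymm e1 e2

/-! ### Positive measure -/

lemma GE_add_nat {L : ℕ} {M : ℝ} (x : ℝ) (N : ℕ) : x + N ∈ GE L M ↔ x ∈ GE L M := by
  induction N with
  | zero => simp
  | succ N ih => rw [Nat.cast_succ, ← add_assoc, GE_periodic, ih]

/-- **Affirmative answer to Q1** for all `L ≥ 2` and all `0 < |α| < 1`. -/
theorem result (L : ℕ) (hL : 1 < L) (α : ℂ) (hα0 : 0 < ‖α‖) (hα1 : ‖α‖ < 1) :
    ∃ Λ : Set ℝ, Λ ⊆ Set.Ico 0 1 ∧ MeasurableSet Λ ∧ 0 < volume Λ ∧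
      ∀ u ∈ Λ, (julia L α u).Nonempty ∧ ¬ IsConnected (julia L α u) := by
  have hα : α ≠ 0 := norm_pos_iff.1 hα0
  have hLpos : 0 < L := by omega
  have hLr : (1 : ℝ) ≤ L := by exact_mod_cast hL.le
  -- the position of the good points
  set b : ℝ := if Even L then 0 else 1 / 4 with hb
  -- a set of good points of positive measure
  obtain ⟨i, hi⟩ : ∃ i : ℕ, volume {x : ℝ | x ∈ Set.Ioo 0 (1 / 8) ∧ x + b ∈ GE L ((i : ℝ) + 1)} ≠ 0 := by
    by_contra hcon
    push Not at hcon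
    have h1 : volume (Set.Ioo (0 : ℝ) (1 / 8)) = 0 := by
      have h2 : ∀ᵐ x : ℝ, ∃ i : ℕ, x + b ∈ GE L ((i : ℝ) + 1) := by
        have h3 := ae_GE (L := L) hLpos
        exact (quasiMeasurePreserving_add_right (volume : Measure ℝ) b).ae h3
      have h4 : Set.Ioo (0 : ℝ) (1 / 8) ⊆ (⋃ i : ℕ,
          {x : ℝ | x ∈ Set.Ioo 0 (1 / 8) ∧ x + b ∈ GE L ((i : ℝ) + 1)}) ∪
          {x : ℝ | ¬ ∃ i : ℕ, x + b ∈ GE L ((i : ℝ) + 1)} := by
        intro x hx
        by_cases h : ∃ i : ℕ, x + b ∈ GE L ((i : ℝ) + 1)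
        · obtain ⟨i, hi⟩ := h
          exact Or.inl (Set.mem_iUnion.2 ⟨i, hx, hi⟩)
        · exact Or.inr h
      refine measure_mono_null h4 (measure_union_null (measure_iUnion_null hcon) h2)
    rw [Real.volume_Ioo] at h1
    norm_num at h1
  set M : ℝ := (i : ℝ) + 1 with hM
  have hMpos : 0 < M := by positivity
  set S : Set ℝ := {x : ℝ | x ∈ Set.Ioo 0 (1 / 8) ∧ x + b ∈ GE L M} with hS
  have hSm : MeasurableSet S := by
    apply measurableSet_Ioo.inter
    exact (GE_closed L M).measurableSet.preimage (measurable_add_const b)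
  -- the time
  obtain ⟨m, hm⟩ : ∃ m : ℕ, RE α M < 3 ^ m := pow_unbounded_of_one_lt _ (by norm_num)
  set n : ℕ := 2 * (m + 6) with hn
  have hn12 : 12 ≤ n := by omega
  have hbig : RE α M < 8 * 3 ^ (n - 5) := by
    have h1 : (3 : ℝ) ^ m ≤ 3 ^ (n - 5) := pow_le_pow_right₀ (by norm_num) (by omega)
    have h2 : (0 : ℝ) < 3 ^ (n - 5) := by positivity
    linarith
  have hLn : (0 : ℝ) < (L : ℝ) ^ n := by positivity
  have hLn1 : (1 : ℝ) ≤ (L : ℝ) ^ n := one_le_pow₀ hLr
  -- all good base points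
  have hmain : ∀ x ∈ S, (julia L α (bp L n x)).Nonempty ∧ ¬ IsConnected (julia L α (bp L n x)) := by
    rintro x ⟨hx, hxG⟩
    have hgood : Good L α (bp L n x) n := by
      rcases Nat.even_or_odd L with h | h
      · exact good_even h (by omega) hα hα1 hx.1 hx.2.le (by omega)
      · exact good_odd h (by omega) hα hα1 hx.1 hx.2.le hn12
    have hG : (L : ℝ) ^ n * bp L n x ∈ GE L M := by
      have h1 : (L : ℝ) ^ n * bp L n x = (L : ℝ) ^ n / 4 + x := by
        unfold bp
        field_simp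
      rw [h1]
      rcases Nat.even_or_odd L with h | h
      · obtain ⟨l, hl⟩ := h
        have hb0 : b = 0 := if_pos ⟨l, hl⟩
        rw [hb0, add_zero] at hxG
        have h2 : (L : ℝ) ^ n / 4 = ((l ^ n * 4 ^ (m + 5) : ℕ) : ℝ) := by
          have h3 : L = 2 * l := by omega
          rw [h3]
          push_cast
          rw [mul_pow, hn, pow_mul 2 2 (m + 6)]
          norm_num
          rw [show m + 6 = (m + 5) + 1 by ring, pow_succ (4 : ℝ) (m + 5)]
          ring
        rw [h2, add_comm, GE_add_nat]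
        exact hxG
      · have hb0 : b = 1 / 4 := if_neg (Nat.not_even_iff_odd.2 h)
        rw [hb0] at hxG
        obtain ⟨N, hN⟩ : ∃ N : ℕ, L ^ n = 4 * N + 1 := by
          obtain ⟨l, hl⟩ := h
          have h3 : L ^ 2 = 4 * (l ^ 2 + l) + 1 := by rw [hl]; ring
          have h4 : L ^ n % 4 = 1 := by
            rw [hn, pow_mul, h3, Nat.pow_mod]
            have : (4 * (l ^ 2 + l) + 1) % 4 = 1 := by omega
            rw [this, one_pow]
            norm_num
          exact ⟨L ^ n / 4, by omega⟩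
        have hN' : (L : ℝ) ^ n = 4 * N + 1 := by exact_mod_cast hN
        have h2 : (L : ℝ) ^ n / 4 + x = (x + 1 / 4) + (N : ℝ) := by rw [hN']; ring
        rw [h2, GE_add_nat]
        exact hxG
    refine ⟨?_, fun h => not_preconnected hα0 hα1 hMpos hgood hbig hG h.isPreconnected⟩
    exact julia_nonempty hα0 hMpos (fun j hj => hgood.1 j hj.le) hG
  refine ⟨(fun u : ℝ => (L : ℝ) ^ n * (u - 1 / 4)) ⁻¹' S, ?_, ?_, ?_, ?_⟩
  · rintro u ⟨hu, -⟩
    have h1 : 0 < u - 1 / 4 := (mul_pos_iff_of_pos_left hLn).1 hu.1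
    have h2 : u - 1 / 4 < 1 / 8 := by
      have := hu.2
      nlinarith
    constructor <;> linarith
  · exact hSm.preimage (by fun_prop)
  · have h1 : (fun u : ℝ => (L : ℝ) ^ n * (u - 1 / 4)) ⁻¹' S =
        (fun u : ℝ => u + (-(1 / 4))) ⁻¹' ((fun v : ℝ => (L : ℝ) ^ n * v) ⁻¹' S) := by
      ext u
      simp [sub_eq_add_neg]
    rw [h1, measure_preimage_add_right, Real.volume_preimage_mul_left hLn.ne']
    apply ENNReal.mul_pos
    · rw [ne_eq, ENNReal.ofReal_eq_zero, not_le]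
      positivity
    · exact hi
  · intro u hu
    have h1 := hmain _ hu
    have h2 : bp L n ((L : ℝ) ^ n * (u - 1 / 4)) = u := by
      unfold bp
      field_simp
      ring
    rwa [h2] at h1

end Pool.Agent.Results.MP_aeea9f_an.DisconnectedJulia
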